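import Pool.Agent.Y938.ZS.Stm

/-!
ZS1: bump covering and scale.
-/

set_option autoImplicit false

namespace Pool.Agent.Y938.ZS.Data

open Set Topology Filter

/-- the data -/
theorem data (eta : X → ℝ) (hc : Continuous eta) (h0 : ∀ g, 0 < eta g) :
    ∃ (f : BumpCovering (Set.Icc (0:ℝ) 1) X Set.univ) (delta : C(X, ℝ)),
      (∀ p g, f p g ≠ 0 → dist (g.1 p) p < eta g) ∧
      (∀ g, 0 < delta g) ∧ (∀ g, delta g < 1 / 8) ∧
      (∀ g, ∀ x y, dist x y ≤ 4 * delta g → dist (g.1 x) (g.1 y) < eta g) ∧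
      (∀ g, ∀ p q, p ≠ q → f p g ≠ 0 → f q g ≠ 0 → 4 * delta g < dist p q) := by
  have hev : ∀ p : Set.Icc (0:ℝ) 1, Continuous fun g : X => g.1 p := fun p =>
    (continuous_eval_const (F := C(Set.Icc (0:ℝ) 1, Set.Icc (0:ℝ) 1)) p).comp continuous_subtype_val
  let U : Set.Icc (0:ℝ) 1 → Set X := fun p => {g : X | dist (g.1 p) p < eta g}
  have hU : ∀ p, IsOpen (U p) := fun p => isOpen_lt ((hev p).dist continuous_const) hc
  have hcov : (Set.univ : Set X) ⊆ ⋃ p, U p := by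
    intro g _
    obtain ⟨x, hx⟩ : ∃ x : Set.Icc (0:ℝ) 1, (x : ℝ) = (g.1 x : ℝ) :=
      intermediate_value_univ₂ (a := (⟨0, by simp⟩ : Set.Icc (0:ℝ) 1))
        (b := (⟨1, by simp⟩ : Set.Icc (0:ℝ) 1))
        (f := fun x : Set.Icc (0:ℝ) 1 => (x : ℝ)) (g := fun x : Set.Icc (0:ℝ) 1 => (g.1 x : ℝ))
        continuous_subtype_val
        (continuous_subtype_val.comp g.1.continuous) (g.1 _).2.1 (g.1 _).2.2
    refine Set.mem_iUnion.mpr ⟨x, ?_⟩
    have h1 : g.1 x = x := Subtype.ext hx.symm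
    change dist (g.1 x) x < eta g
    rw [h1, dist_self]
    exact h0 g
  obtain ⟨f, hf⟩ := BumpCovering.exists_isSubordinate isClosed_univ U hU hcov
  let t : X → Set ℝ := fun g => {d | 0 < d ∧ d < 1 / 8 ∧
    (∀ x y, dist x y ≤ 4 * d → dist (g.1 x) (g.1 y) < eta g) ∧
    ∀ p q, p ≠ q → f p g ≠ 0 → f q g ≠ 0 → 4 * d < dist p q}
  have htc : ∀ g, Convex ℝ (t g) := by
    intro g
    refine Set.OrdConnected.convex ⟨?_⟩
    rintro a ⟨ha1, -, -, -⟩ b ⟨-, hb2, hb3, hb4⟩ c ⟨hac, hcb⟩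
    refine ⟨by linarith, by linarith, fun x y hxy => hb3 x y (by linarith), ?_⟩
    intro p q hpq h1 h2
    have := hb4 p q hpq h1 h2
    linarith
  have hloc : ∀ g0 : X, ∃ c : ℝ, ∀ᶠ g in 𝓝 g0, c ∈ t g := by
    intro g0
    have hu := CompactSpace.uniformContinuous_of_continuous g0.1.continuous
    rw [Metric.uniformContinuous_iff] at hu
    have he := h0 g0
    obtain ⟨d1, hd1, hd1'⟩ := hu (eta g0 / 4) (by positivity)
    obtain ⟨s, hs, hfin⟩ := f.locallyFinite g0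
    set F := {i | ((Function.support (f i)) ∩ s).Nonempty} with hF
    have hE : ∀ᶠ d in 𝓝[>] (0:ℝ), ∀ pq ∈ (F ×ˢ F), pq.1 ≠ pq.2 → d < dist pq.1 pq.2 / 4 := by
      rw [Filter.eventually_all_finite (hfin.prod hfin)]
      intro pq _
      by_cases h : pq.1 = pq.2
      · exact Eventually.of_forall fun _ h' => absurd h h'
      · have : (0:ℝ) < dist pq.1 pq.2 / 4 := by
          have := dist_pos.mpr h
          positivity
        filter_upwards [nhdsWithin_le_nhds (Iio_mem_nhds this)] with d hd _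
        exact hd
    have h18 : ∀ᶠ d in 𝓝[>] (0:ℝ), d < 1 / 8 :=
      nhdsWithin_le_nhds (Iio_mem_nhds (by norm_num))
    have hdd : ∀ᶠ d in 𝓝[>] (0:ℝ), d < d1 / 4 :=
      nhdsWithin_le_nhds (Iio_mem_nhds (by positivity))
    obtain ⟨d, ⟨⟨hdE, hd8⟩, hdd1⟩, hd0⟩ :=
      (((hE.and h18).and hdd).and self_mem_nhdsWithin).exists
    refine ⟨d, ?_⟩
    have he2 : ∀ᶠ g in 𝓝 g0, eta g0 / 2 < eta g :=
      hc.continuousAt.eventually (lt_mem_nhds (by linarith))
    filter_upwards [Metric.ball_mem_nhds g0 (show (0:ℝ) < eta g0 / 8 by positivity), he2, hs]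
      with g hg1 hg2 hg3
    refine ⟨hd0, hd8, ?_, ?_⟩
    · intro x y hxy
      have h1 : dist (g0.1 x) (g0.1 y) < eta g0 / 4 := hd1' (by linarith)
      have h2 : ∀ z, dist (g.1 z) (g0.1 z) < eta g0 / 8 := fun z =>
        (ContinuousMap.dist_apply_le_dist z).trans_lt hg1
      have h3 := h2 x
      have h4 := h2 y
      have h5 := dist_triangle4 (g.1 x) (g0.1 x) (g0.1 y) (g.1 y)
      rw [dist_comm (g0.1 y) (g.1 y)] at h5
      linarith
    · intro p q hpq hp hq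
      have := hdE (p, q) ⟨⟨g, hp, hg3⟩, ⟨g, hq, hg3⟩⟩ hpq
      change d < dist p q / 4 at this
      linarith
  obtain ⟨delta, hdelta⟩ := exists_continuous_forall_mem_convex_of_local_const htc hloc
  refine ⟨f, delta, ?_, fun g => (hdelta g).1, fun g => (hdelta g).2.1,
    fun g => (hdelta g).2.2.1, fun g => (hdelta g).2.2.2⟩
  intro p g hpg
  exact hf p (subset_tsupport _ hpg)

end Pool.Agent.Y938.ZS.Data

namespace Pool.Agent.Y938.ZS

/-- ZS1 -/
theorem data_spec : S_data := by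
  intro η hη hpos
  obtain ⟨f, δ, h1, h2, h3, h4, h5⟩ := Data.data η hη hpos
  refine ⟨fun p g => f p g, fun g => δ g, fun p => (f p).continuous, f.locallyFinite,
    fun p g => ⟨f.nonneg p g, f.le_one p g⟩, h1, fun g => ?_, δ.continuous,
    fun g => ⟨h2 g, h3 g⟩, h4, h5⟩
  exact ⟨f.ind g (Set.mem_univ g), f.ind_apply g (Set.mem_univ g)⟩

end Pool.Agent.Y938.ZS
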