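import Pool.Agent.Y938.ZS.Stm

/-! # ZS2: the perturbation -/

set_option autoImplicit false

open Filter Topology Set

namespace Pool.Agent.Y938.ZS

namespace Pert

noncomputable section

/-- clamping to `[0,1]` -/
def cl (t : ℝ) : ℝ := max 0 (min 1 t)

theorem cl_nonneg (t : ℝ) : 0 ≤ cl t := le_max_left _ _

theorem cl_le_one (t : ℝ) : cl t ≤ 1 := max_le zero_le_one (min_le_left _ _)

theorem cl_zero {t : ℝ} (h : t ≤ 0) : cl t = 0 := by
  unfold cl
  exact max_eq_left ((min_le_right _ _).trans h)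

theorem cl_one {t : ℝ} (h : 1 ≤ t) : cl t = 1 := by
  unfold cl
  rw [min_eq_left h]
  exact max_eq_right zero_le_one

theorem cl_ne {t : ℝ} (h : cl t ≠ 0) : 0 < t := by
  by_contra hcon
  exact h (cl_zero (not_lt.1 hcon))

theorem cl_cont : Continuous cl := continuous_const.max (continuous_const.min continuous_id)

theorem cl_near {u v : ℝ} (h0 : 0 ≤ u) (h1 : u ≤ 1) : |cl v - u| ≤ |v - u| := by
  rcases le_total v 0 with h | h
  · rw [cl_zero h, abs_of_nonpos (by linarith), abs_of_nonpos (by linarith)]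
    linarith
  · rcases le_total v 1 with h' | h'
    · unfold cl
      rw [min_eq_right h', max_eq_right h]
    · rw [cl_one h', abs_of_nonneg (by linarith), abs_of_nonneg (by linarith)]
      linarith

/-- the stretched value -/
def G (e u : ℝ) : ℝ := cl ((1 + 4 * e) * (u - 1 / 2) + 1 / 2)

theorem G_near {e u : ℝ} (he : 0 < e) (h0 : 0 ≤ u) (h1 : u ≤ 1) : |G e u - u| ≤ 2 * e := by
  refine (cl_near h0 h1).trans ?_
  have h2 : (1 + 4 * e) * (u - 1 / 2) + 1 / 2 - u = 4 * e * (u - 1 / 2) := by ring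
  rw [h2, abs_mul, abs_of_pos (by linarith : (0:ℝ) < 4 * e)]
  have h3 : |u - 1 / 2| ≤ 1 / 2 := by
    rw [abs_le]
    constructor <;> linarith
  nlinarith

theorem G_zero {e u : ℝ} (he : 0 < e) (he4 : e ≤ 1 / 4) (h : u ≤ e) : G e u = 0 := by
  apply cl_zero
  nlinarith

theorem G_one {e u : ℝ} (he : 0 < e) (he4 : e ≤ 1 / 4) (h : 1 - e ≤ u) : G e u = 1 := by
  apply cl_one
  nlinarith

/-- the weight of `p` at `(g, x)` -/
def kap (f : Set.Icc (0:ℝ) 1 → X → ℝ) (δ : X → ℝ) (g : X) (x p : Set.Icc (0:ℝ) 1) : ℝ :=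
  f p g * cl (2 - |(x : ℝ) - p| / δ g)

/-- the perturbed map -/
def Phi (η : X → ℝ) (f : Set.Icc (0:ℝ) 1 → X → ℝ) (δ : X → ℝ) (g : X) (x : Set.Icc (0:ℝ) 1) : ℝ :=
  G (η g) (g.1 x) + ∑ᶠ p : Set.Icc (0:ℝ) 1, kap f δ g x p * ((p : ℝ) - G (η g) (g.1 x))

theorem Phi_single {η : X → ℝ} {f : Set.Icc (0:ℝ) 1 → X → ℝ} {δ : X → ℝ} {g : X}
    {x p : Set.Icc (0:ℝ) 1} (h : ∀ q, q ≠ p → kap f δ g x q = 0) :
    Phi η f δ g x = G (η g) (g.1 x) + kap f δ g x p * ((p : ℝ) - G (η g) (g.1 x)) := by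
  unfold Phi
  rw [finsum_eq_single _ p]
  intro q hq
  rw [h q hq, zero_mul]

theorem kap_ne {f : Set.Icc (0:ℝ) 1 → X → ℝ} {δ : X → ℝ} (hδ : ∀ g, 0 < δ g) {g : X}
    {x p : Set.Icc (0:ℝ) 1} (h : kap f δ g x p ≠ 0) : f p g ≠ 0 ∧ |(x : ℝ) - p| < 2 * δ g := by
  unfold kap at h
  refine ⟨left_ne_zero_of_mul h, ?_⟩
  have h1 := cl_ne (right_ne_zero_of_mul h)
  have h2 : |(x : ℝ) - p| / δ g < 2 := by linarith
  rwa [div_lt_iff₀ (hδ g)] at h2

theorem kap_mem {f : Set.Icc (0:ℝ) 1 → X → ℝ} {δ : X → ℝ} (hf : ∀ p g, 0 ≤ f p g ∧ f p g ≤ 1)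
    (g : X) (x p : Set.Icc (0:ℝ) 1) : 0 ≤ kap f δ g x p ∧ kap f δ g x p ≤ 1 :=
  ⟨mul_nonneg (hf p g).1 (cl_nonneg _), mul_le_one₀ (hf p g).2 (cl_nonneg _) (cl_le_one _)⟩

theorem kap_uniq {f : Set.Icc (0:ℝ) 1 → X → ℝ} {δ : X → ℝ} (hδ : ∀ g, 0 < δ g)
    (hsep : ∀ g p q, p ≠ q → f p g ≠ 0 → f q g ≠ 0 → 4 * δ g < dist p q) {g : X}
    {x p q : Set.Icc (0:ℝ) 1} (hp : kap f δ g x p ≠ 0) (hqp : q ≠ p) : kap f δ g x q = 0 := by
  by_contra hq
  obtain ⟨h1, h2⟩ := kap_ne hδ hp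
  obtain ⟨h3, h4⟩ := kap_ne hδ hq
  have h5 := hsep g q p hqp h3 h1
  rw [Subtype.dist_eq, Real.dist_eq] at h5
  have h6 : |(q : ℝ) - p| ≤ |(x : ℝ) - q| + |(x : ℝ) - p| := by
    rw [abs_sub_comm (x : ℝ) q]
    exact abs_sub_le _ _ _
  linarith

theorem Phi_form {η : X → ℝ} {f : Set.Icc (0:ℝ) 1 → X → ℝ} {δ : X → ℝ} (hδ : ∀ g, 0 < δ g)
    (hsep : ∀ g p q, p ≠ q → f p g ≠ 0 → f q g ≠ 0 → 4 * δ g < dist p q) (g : X)
    (x : Set.Icc (0:ℝ) 1) : ∃ p : Set.Icc (0:ℝ) 1,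
      Phi η f δ g x = G (η g) (g.1 x) + kap f δ g x p * ((p : ℝ) - G (η g) (g.1 x)) := by
  by_cases h : ∃ p, kap f δ g x p ≠ 0
  · obtain ⟨p, hp⟩ := h
    exact ⟨p, Phi_single fun q hq => kap_uniq hδ hsep hp hq⟩
  · push Not at h
    exact ⟨x, Phi_single fun q _ => h q⟩

theorem Phi_cont {η : X → ℝ} {f : Set.Icc (0:ℝ) 1 → X → ℝ} {δ : X → ℝ} (hη : Continuous η)
    (hf : ∀ p, Continuous (f p)) (hlf : LocallyFinite fun p => Function.support (f p))
    (hδc : Continuous δ) (hδ : ∀ g, 0 < δ g) :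
    Continuous (fun q : X × Set.Icc (0:ℝ) 1 => Phi η f δ q.1 q.2) := by
  have hev : Continuous (fun q : X × Set.Icc (0:ℝ) 1 => ((q.1.1 q.2 : Set.Icc (0:ℝ) 1) : ℝ)) := by
    have h1 : Continuous (fun q : X × Set.Icc (0:ℝ) 1 => (q.1.1, q.2)) :=
      (continuous_subtype_val.comp continuous_fst).prodMk continuous_snd
    exact continuous_subtype_val.comp (ContinuousEval.continuous_eval.comp h1)
  have hG : Continuous (fun q : X × Set.Icc (0:ℝ) 1 => G (η q.1) (q.1.1 q.2)) := by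
    unfold G
    refine cl_cont.comp ?_
    have h2 := hη.comp (continuous_fst (X := X) (Y := Set.Icc (0:ℝ) 1))
    exact ((continuous_const.add (continuous_const.mul h2)).mul (hev.sub continuous_const)).add
      continuous_const
  unfold Phi
  refine hG.add (continuous_finsum (fun p => ?_) ?_)
  · refine Continuous.mul ?_ (continuous_const.sub hG)
    unfold kap
    refine ((hf p).comp continuous_fst).mul (cl_cont.comp (continuous_const.sub ?_))
    refine Continuous.div ?_ (hδc.comp continuous_fst) fun q => (hδ q.1).ne'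
    exact ((continuous_subtype_val.comp continuous_snd).sub continuous_const).abs
  · refine (hlf.preimage_continuous (continuous_fst (X := X) (Y := Set.Icc (0:ℝ) 1))).subset ?_
    intro p q hq
    rw [Function.mem_support] at hq
    have h3 : kap f δ q.1 q.2 p ≠ 0 := left_ne_zero_of_mul hq
    exact left_ne_zero_of_mul h3

/-- near every point there is one which is not touched by the bumps -/
theorem exists_free {f : Set.Icc (0:ℝ) 1 → X → ℝ} {δ : X → ℝ}
    (hδ : ∀ g, 0 < δ g ∧ δ g < 1 / 8)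
    (hsep : ∀ g p q, p ≠ q → f p g ≠ 0 → f q g ≠ 0 → 4 * δ g < dist p q) (g : X)
    (x₀ : Set.Icc (0:ℝ) 1) : ∃ x : Set.Icc (0:ℝ) 1, dist x x₀ ≤ 4 * δ g ∧
      ∀ p, kap f δ g x p = 0 := by
  have hd := (hδ g).1
  by_cases h : ∃ p, kap f δ g x₀ p ≠ 0
  · obtain ⟨p, hp⟩ := h
    obtain ⟨h1, h2⟩ := kap_ne (fun g => (hδ g).1) hp
    obtain ⟨x, hx⟩ : ∃ x : Set.Icc (0:ℝ) 1, |(x : ℝ) - p| = 2 * δ g := by
      rcases le_total (p : ℝ) (1 / 2) with hp2 | hp2
      · refine ⟨⟨p + 2 * δ g, by have := p.2.1; linarith, by have := (hδ g).2; linarith⟩, ?_⟩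
        simp only [add_sub_cancel_left]
        exact abs_of_pos (by linarith)
      · refine ⟨⟨p - 2 * δ g, by have := (hδ g).2; linarith, by have := p.2.2; linarith⟩, ?_⟩
        have h3 : (p : ℝ) - 2 * δ g - p = -(2 * δ g) := by ring
        simp only [h3, abs_neg]
        exact abs_of_pos (by linarith)
    refine ⟨x, ?_, fun q => ?_⟩
    · rw [Subtype.dist_eq, Real.dist_eq]
      have h4 : |(x : ℝ) - x₀| ≤ |(x : ℝ) - p| + |(x₀ : ℝ) - p| := by
        rw [abs_sub_comm (x₀ : ℝ) p]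
        exact abs_sub_le _ _ _
      linarith
    · by_contra hq
      obtain ⟨h5, h6⟩ := kap_ne (fun g => (hδ g).1) hq
      rcases eq_or_ne q p with rfl | hqp
      · linarith
      · have h7 := hsep g q p hqp h5 h1
        rw [Subtype.dist_eq, Real.dist_eq] at h7
        have h8 : |(q : ℝ) - p| ≤ |(x : ℝ) - q| + |(x : ℝ) - p| := by
          rw [abs_sub_comm (x : ℝ) q]
          exact abs_sub_le _ _ _
        linarith
  · push Not at h
    exact ⟨x₀, by rw [dist_self]; linarith, h⟩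

end

end Pert

open Pert in
/-- ZS2: the perturbation. -/
theorem pert_spec : S_pert := by
  intro η hη hηb f δ hf hlf hf01 hfp hδc hδ hosc hsep
  have hδ0 : ∀ g, 0 < δ g := fun g => (hδ g).1
  have hmem : ∀ (g : X) (x : Set.Icc (0:ℝ) 1), Phi η f δ g x ∈ Set.Icc (0:ℝ) 1 := by
    intro g x
    obtain ⟨p, hp⟩ := Phi_form (η := η) hδ0 hsep g x
    obtain ⟨hk0, hk1⟩ := kap_mem (δ := δ) hf01 g x p
    have hG0 : 0 ≤ G (η g) (g.1 x) := cl_nonneg _
    have hG1 : G (η g) (g.1 x) ≤ 1 := cl_le_one _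
    have hp0 := p.2.1
    have hp1 := p.2.2
    rw [hp]
    constructor <;> nlinarith
  let Ψ : C(X × Set.Icc (0:ℝ) 1, Set.Icc (0:ℝ) 1) :=
    ⟨fun q => ⟨Phi η f δ q.1 q.2, hmem q.1 q.2⟩,
      (Phi_cont hη hf hlf hδc hδ0).subtype_mk _⟩
  have hΨ : ∀ g x, (((Ψ.curry g) x : Set.Icc (0:ℝ) 1) : ℝ) = Phi η f δ g x := fun g x => rfl
  have hfree : ∀ (g : X) (x : Set.Icc (0:ℝ) 1), (∀ p, kap f δ g x p = 0) →
      Phi η f δ g x = G (η g) (g.1 x) := by
    intro g x h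
    rw [Phi_single (p := x) fun q _ => h q, h x]
    ring
  have hsurj : ∀ g : X, Function.Surjective (Ψ.curry g) := by
    intro g c
    have : PreconnectedSpace (Set.Icc (0:ℝ) 1) := Subtype.preconnectedSpace isPreconnected_Icc
    have h0 : ∃ a, (Ψ.curry g) a ≤ c := by
      obtain ⟨x₀, hx₀⟩ := g.2 (0 : Set.Icc (0:ℝ) 1)
      obtain ⟨x, hx, hxf⟩ := exists_free hδ hsep g x₀
      refine ⟨x, ?_⟩
      have h1 := hosc g x x₀ hx
      rw [Subtype.dist_eq, Real.dist_eq, hx₀] at h1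
      have h2 : ((g.1 x : Set.Icc (0:ℝ) 1) : ℝ) ≤ η g := by
        have h3 := (abs_lt.1 h1).2
        simp only [Set.Icc.coe_zero, sub_zero] at h3
        exact h3.le
      rw [← Subtype.coe_le_coe, hΨ, hfree g x hxf, G_zero (hηb g).1 (hηb g).2 h2]
      exact c.2.1
    have h1 : ∃ b, c ≤ (Ψ.curry g) b := by
      obtain ⟨x₀, hx₀⟩ := g.2 (1 : Set.Icc (0:ℝ) 1)
      obtain ⟨x, hx, hxf⟩ := exists_free hδ hsep g x₀
      refine ⟨x, ?_⟩
      have h1 := hosc g x x₀ hx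
      rw [Subtype.dist_eq, Real.dist_eq, hx₀] at h1
      have h2 : 1 - η g ≤ ((g.1 x : Set.Icc (0:ℝ) 1) : ℝ) := by
        have h3 := (abs_lt.1 h1).1
        simp only [Set.Icc.coe_one] at h3
        linarith
      rw [← Subtype.coe_le_coe, hΨ, hfree g x hxf, G_one (hηb g).1 (hηb g).2 h2]
      exact c.2.2
    exact mem_range_of_exists_le_of_exists_ge (Ψ.curry g).continuous h0 h1
  refine ⟨fun g => ⟨Ψ.curry g, hsurj g⟩, Ψ.curry.continuous.subtype_mk _, ?_, ?_⟩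
  · intro g x
    rw [Subtype.dist_eq, Real.dist_eq]
    change |Phi η f δ g x - (g.1 x : ℝ)| < 8 * η g
    have hu0 := (g.1 x).2.1
    have hu1 := (g.1 x).2.2
    have hGn := G_near (hηb g).1 hu0 hu1
    have hη0 := (hηb g).1
    obtain ⟨p, hp⟩ := Phi_form (η := η) hδ0 hsep g x
    obtain ⟨hk0, hk1⟩ := kap_mem (δ := δ) hf01 g x p
    rcases eq_or_ne (kap f δ g x p) 0 with hk | hk
    · rw [hp, hk, zero_mul, add_zero]
      linarith
    · obtain ⟨h1, h2⟩ := kap_ne hδ0 hk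
      have h3 := hfp p g h1
      have h4 := hosc g p x (by
        rw [Subtype.dist_eq, Real.dist_eq, abs_sub_comm]
        linarith [hδ0 g])
      rw [Subtype.dist_eq, Real.dist_eq] at h3 h4
      have h5 : |(p : ℝ) - G (η g) (g.1 x)| ≤ 4 * η g := by
        have e1 := abs_lt.1 h3
        have e2 := abs_lt.1 h4
        have e3 := abs_le.1 hGn
        rw [abs_le]
        constructor <;> linarith [e1.1, e1.2, e2.1, e2.2, e3.1, e3.2]
      have h6 : |kap f δ g x p * ((p : ℝ) - G (η g) (g.1 x))| ≤ 4 * η g := by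
        rw [abs_mul, abs_of_nonneg hk0]
        calc kap f δ g x p * |(p : ℝ) - G (η g) (g.1 x)| ≤ 1 * |(p : ℝ) - G (η g) (g.1 x)| :=
              mul_le_mul_of_nonneg_right hk1 (abs_nonneg _)
          _ ≤ 4 * η g := by rw [one_mul]; exact h5
      rw [hp]
      have h7 := abs_le.1 h6
      have h8 := abs_le.1 hGn
      rw [abs_lt]
      constructor <;> linarith [h7.1, h7.2, h8.1, h8.2]
  · intro g p hfp1 x hxp
    have hd := hδ0 g
    have hk : kap f δ g x p = 1 := by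
      unfold kap
      rw [hfp1, one_mul]
      apply cl_one
      rw [Subtype.dist_eq, Real.dist_eq] at hxp
      have : |(x : ℝ) - p| / δ g ≤ 1 := by rw [div_le_one hd]; exact hxp
      linarith
    have hne : kap f δ g x p ≠ 0 := by rw [hk]; exact one_ne_zero
    apply Subtype.ext
    change Phi η f δ g x = (p : ℝ)
    rw [Phi_single fun q hq => kap_uniq hδ0 hsep hne hq, hk]
    ring

end Pool.Agent.Y938.ZS
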