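import Mathlib

/-!
Project ZS (MP_1144d4_gt, frozen statement S12771): the closure of the transitive maps of the interval is
a Z-set in the space of continuous surjections of the interval.
-/

set_option autoImplicit false

open Filter Topology Set

namespace Pool.Agent.Y938.ZS

/-- The space of continuous surjections of `[0,1]`. -/
abbrev X : Type := {f : C(Set.Icc (0:ℝ) 1, Set.Icc (0:ℝ) 1) // Function.Surjective ⇑f}

/-- The transitive maps. -/
def Tr : Set X :=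
  {h : X | ∀ U V : Set (Set.Icc (0:ℝ) 1), IsOpen U → IsOpen V → U.Nonempty → V.Nonempty →
    ∃ n : ℕ, 0 < n ∧ ((⇑h.1)^[n] '' U ∩ V).Nonempty}

/-- ZS1: strengths `f p` (a bump covering) and a scale `δ`. -/
def S_data : Prop :=
  ∀ η : X → ℝ, Continuous η → (∀ g, 0 < η g) →
    ∃ (f : Set.Icc (0:ℝ) 1 → X → ℝ) (δ : X → ℝ),
      (∀ p, Continuous (f p)) ∧
      (LocallyFinite fun p => Function.support (f p)) ∧
      (∀ p g, 0 ≤ f p g ∧ f p g ≤ 1) ∧
      (∀ p g, f p g ≠ 0 → dist (g.1 p) p < η g) ∧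
      (∀ g, ∃ p, f p g = 1) ∧
      Continuous δ ∧ (∀ g, 0 < δ g ∧ δ g < 1 / 8) ∧
      (∀ g x y, dist x y ≤ 4 * δ g → dist (g.1 x) (g.1 y) < η g) ∧
      (∀ g p q, p ≠ q → f p g ≠ 0 → f q g ≠ 0 → 4 * δ g < dist p q)

/-- ZS2: the perturbation. -/
def S_pert : Prop :=
  ∀ (η : X → ℝ), Continuous η → (∀ g, 0 < η g ∧ η g ≤ 1 / 4) →
    ∀ (f : Set.Icc (0:ℝ) 1 → X → ℝ) (δ : X → ℝ),
      (∀ p, Continuous (f p)) →
      (LocallyFinite fun p => Function.support (f p)) →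
      (∀ p g, 0 ≤ f p g ∧ f p g ≤ 1) →
      (∀ p g, f p g ≠ 0 → dist (g.1 p) p < η g) →
      Continuous δ → (∀ g, 0 < δ g ∧ δ g < 1 / 8) →
      (∀ g x y, dist x y ≤ 4 * δ g → dist (g.1 x) (g.1 y) < η g) →
      (∀ g p q, p ≠ q → f p g ≠ 0 → f q g ≠ 0 → 4 * δ g < dist p q) →
      ∃ φ : X → X, Continuous φ ∧
        (∀ g x, dist ((φ g).1 x) (g.1 x) < 8 * η g) ∧
        (∀ g p, f p g = 1 → ∀ x, dist x p ≤ δ g → (φ g).1 x = p)

/-- ZS3: a map which is constant, equal to `p`, near `p` is not a limit of transitive maps. -/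
def S_trap : Prop :=
  ∀ (h : X) (p : Set.Icc (0:ℝ) 1) (δ : ℝ), 0 < δ → δ < 1 / 8 →
    (∀ x, dist x p ≤ δ → h.1 x = p) → h ∉ closure Tr

end Pool.Agent.Y938.ZS
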