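import Pool.Agent.Y938.ZS.Stm

/-!
Project ZS, job ZS3 (helper459): trapped maps are not limits of transitive maps.
-/

set_option autoImplicit false

open Filter Topology Set

namespace Pool.Agent.Y938.ZS

theorem trap_spec : S_trap := by
  intro h p δ hδ hδ8 hconst hcl
  rw [Metric.mem_closure_iff] at hcl
  obtain ⟨k, hk, hhk⟩ := hcl δ hδ
  have hd : ∀ x, dist (h.1 x) (k.1 x) < δ := fun x =>
    lt_of_le_of_lt (ContinuousMap.dist_apply_le_dist x) hhk
  have hU : ∀ x, dist x p < δ → dist (k.1 x) p < δ := fun x hx => by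
    have := hd x
    rw [hconst x hx.le, dist_comm] at this
    exact this
  have hit : ∀ (n : ℕ) (x : Set.Icc (0:ℝ) 1), dist x p < δ → dist ((⇑k.1)^[n] x) p < δ := by
    intro n
    induction n with
    | zero => intro x hx; exact hx
    | succ n ih => intro x hx; rw [Function.iterate_succ_apply]; exact ih _ (hU x hx)
  have hUo : IsOpen {x : Set.Icc (0:ℝ) 1 | dist x p < δ} :=
    isOpen_lt (continuous_id.dist continuous_const) continuous_const
  have hV : IsOpen {x : Set.Icc (0:ℝ) 1 | δ < dist x p} :=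
    isOpen_lt continuous_const (continuous_id.dist continuous_const)
  have hVne : {x : Set.Icc (0:ℝ) 1 | δ < dist x p}.Nonempty := by
    by_contra hne
    rw [Set.not_nonempty_iff_eq_empty, Set.eq_empty_iff_forall_notMem] at hne
    have h0 := hne (0 : Set.Icc (0:ℝ) 1)
    have h1 := hne (1 : Set.Icc (0:ℝ) 1)
    rw [Set.mem_ofPred_eq, not_lt] at h0 h1
    have h2 : dist (0 : Set.Icc (0:ℝ) 1) 1 = 1 := by
      rw [Subtype.dist_eq]
      simp
    have h3 := dist_triangle_right (0 : Set.Icc (0:ℝ) 1) 1 p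
    linarith
  obtain ⟨n, -, y, ⟨x, hx, rfl⟩, hy⟩ := hk _ _ hUo hV ⟨p, by simpa using hδ⟩ hVne
  have := hit n x hx
  exact absurd hy (not_lt.2 this.le)

end Pool.Agent.Y938.ZS
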